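import Mathlib
import Pool.Agent.Helper41.PIntDefs
import Pool.Agent.Helper41.PIntAsymp

/-!
# First-order asymptotics of the `p`-intersection number of `𝒦(n × k)` as `k → ∞`
-/

namespace Pool.Agent.Results.MP_890668_co.AsymptoticsK

open Filter Topology Pool.Agent.Helper41.PInt

/-- For fixed `p ≥ 1` and `n ≥ 2`, the `p`-intersection number of `𝒦(n × k)` is asymptotic to
`k ^ 2 / p` as `k → ∞`. -/
theorem result (p n : ℕ) (hp : 1 ≤ p) (hn : 2 ≤ n) :
    Tendsto (fun k : ℕ => (theta (graphK n k) p : ℝ) / ((k : ℝ) ^ 2 / (p : ℝ))) atTop (𝓝 1) := by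
  have hp0 : (0 : ℝ) < p := by exact_mod_cast hp
  rw [tendsto_order]
  constructor
  · intro a ha
    obtain ⟨K, hK⟩ := exists_nat_gt (1 / (1 - a))
    filter_upwards [theta_bounds hp hn one_pos, eventually_ge_atTop K, eventually_gt_atTop 0]
      with k hk hkK hk0
    have hk0' : (0 : ℝ) < k := by exact_mod_cast hk0
    have hkK' : 1 / (1 - a) < k := lt_of_lt_of_le hK (by exact_mod_cast hkK)
    rw [div_div_eq_mul_div, lt_div_iff₀ (by positivity)]
    have h1 : 1 < (1 - a) * k := by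
      rw [div_lt_iff₀ (by linarith)] at hkK'
      linarith
    have h2 : a * (k : ℝ) ^ 2 < (k : ℝ) ^ 2 - k := by
      have : k * 1 < k * ((1 - a) * k) := by gcongr
      nlinarith
    linarith [hk.1]
  · intro a ha
    obtain ⟨δ, hδ, hδa⟩ : ∃ δ : ℝ, 0 < δ ∧ (1 + δ) ^ 2 < a := by
      refine ⟨min 1 ((a - 1) / 4), lt_min one_pos (by linarith), ?_⟩
      have h1 : min 1 ((a - 1) / 4) ≤ 1 := min_le_left _ _
      have h2 : min 1 ((a - 1) / 4) ≤ (a - 1) / 4 := min_le_right _ _
      have h3 : 0 < min 1 ((a - 1) / 4) := lt_min one_pos (by linarith)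
      nlinarith
    filter_upwards [theta_bounds hp hn hδ, eventually_gt_atTop 0] with k hk hk0
    have hk0' : (0 : ℝ) < k := by exact_mod_cast hk0
    rw [div_div_eq_mul_div, div_lt_iff₀ (by positivity)]
    have h1 : ((1 + δ) * k) ^ 2 < a * (k : ℝ) ^ 2 := by
      rw [mul_pow]
      gcongr
    linarith [hk.2]

end Pool.Agent.Results.MP_890668_co.AsymptoticsK
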